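import Pool.Agent.H98.CF.Sub
import Pool.Agent.H98.CF.Tight

/-!
# Cubic graphs and disjoint 3-cycles and 4-cycles

Statement and proof are in Mathlib terms only.  A family of vertex-disjoint 3-cycles and 4-cycles is
given by the set `W` of its vertices and its rotation `r`, which maps each vertex of `W` to the next
one on its cycle.  For `W` = all vertices and `G` cubic the family is a 2-factor of `G` and the
theorem says `n ≤ 2 |S|`.

Idea of the proof.  Work in `G[W]`; vertices with a neighbour outside `W` have a half-edge.
Contract the cycles.  If there is no bridge, the vertices of degree 4 can be split into two vertices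
of degree 2 such that no bridge arises (splitting off; the pairs are adjacent on the 4-cycle).  Solve
the linear system over the field with two elements: `x` is constant on the edges outside the family,
takes both values on each pair of a 4-cycle and has sum zero on each 3-cycle.  It is solvable by a
parity argument, and in a random solution each 3-cycle is missed with probability exactly one
quarter.  The vertices with value 1, with one more vertex on each 4-cycle where the two vertices with
value 1 are opposite, induce a 2-regular graph.

Bridges are edges outside the family.  Cut a bridge into two half-edges and use induction for a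
stronger statement about pieces with half-edges, in which the end of a given half-edge can be
avoided, or covered, or avoided with a surplus.  The bridgeless pieces are treated as above.
-/

set_option autoImplicit false

universe u

namespace Pool.Agent.Results.MP_036d25_co.ShortCycleFactor

theorem result :
    (∀ (V : Type u) [Fintype V] [DecidableEq V] (G : SimpleGraph V) [DecidableRel G.Adj]
      (W : Finset V) (r : V → V), (∀ v, G.degree v ≤ 3) → (∀ v ∈ W, r v ∈ W ∧ G.Adj v (r v)) →
        (∀ v ∈ W, r (r (r v)) = v ∨ (r (r (r (r v))) = v ∧ r (r v) ≠ v)) →
        ∃ S : Finset V, S ⊆ W ∧ (∀ v ∈ S, (S.filter (fun y => G.Adj v y)).card = 2) ∧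
          (W.filter (fun v => (W.filter (fun y => G.Adj v y)).card = 3)).card ≤ 2 * S.card ∧
          (G.IsRegularOfDegree 3 → 4 * W.card ≤ 2 * S.card + 3 * Fintype.card V)) ∧
    (∀ m : ℕ, 0 < m → ∃ (V : Type) (_ : Fintype V) (_ : DecidableEq V) (G : SimpleGraph V)
      (_ : DecidableRel G.Adj) (r : V → V), Fintype.card V = 12 * m ∧ G.Connected ∧
        G.IsRegularOfDegree 3 ∧ (∀ v, G.Adj v (r v)) ∧ (∀ v, r (r v) ≠ v) ∧
        (∀ v, r (r (r (r v))) = v) ∧
        ∀ S : Finset V, (∀ v ∈ S, (S.filter (fun y => G.Adj v y)).card = 2) →
          2 * S.card ≤ Fintype.card V) := by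
  refine ⟨?_, ?_⟩
  · intro V _ _ G _ W r h3 h1 hr
    obtain ⟨S, hS, hS2, hc⟩ := H98.CF.short_cycles h3 W r h1 hr
    refine ⟨S, hS, hS2, hc, fun hreg => ?_⟩
    have := H98.CF.few_boundary hreg W
    omega
  · intro m hm
    have : NeZero m := ⟨hm.ne'⟩
    have hc : Fintype.card (ZMod m × Fin 12) = 12 * m := by
      rw [Fintype.card_prod, ZMod.card, Fintype.card_fin, mul_comm]
    refine ⟨ZMod m × Fin 12, inferInstance, inferInstance, H98.CF.chain m, inferInstance,
      H98.CF.rN m, hc, H98.CF.chain_connected m, H98.CF.chain_regular m, ?_, ?_,
      H98.CF.rN4 m, ?_⟩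
    · intro v
      rw [H98.CF.chain_adj]
      exact Or.inl rfl
    · intro v h
      exact H98.CF.rot2_ne v.2 (congrArg Prod.snd h)
    · intro S hS
      rw [hc]
      have := H98.CF.chain_bound m S hS
      omega

end Pool.Agent.Results.MP_036d25_co.ShortCycleFactor
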