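import Pool.Agent.H93.CI.Main

/-!
# MP_036d25_co: induced 2-regular subgraphs of graphs of maximum degree three

For a nonempty graph with `n` vertices, `m` edges and maximum degree at most `3` there is a set `S`
of vertices inducing a `2`-regular subgraph with `9 |S| ≥ 5 (m - n + 1)`; for cubic graphs
`18 |S| ≥ 5 n + 10`.

Proof (`Pool/Agent/H93/CI`). Take `S` of maximum size, `F` = vertices outside `S` without
neighbours in `S`. A vertex outside `S` is of type D if it has one neighbour in `S` and two in `F`.
A centre is a vertex of `S` both of whose neighbours in `S` are adjacent to a vertex of type D;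
removing centres with pairwise disjoint closed neighbourhoods and adding the attached vertices of
type D together with a suitable minimal part of `F` would enlarge `S` unless `F` has few edges
(`core`, `swap`). Counting degrees gives the bound.
-/

namespace Pool.Agent.Results.MP_036d25_co.SubcubicFiveNinths

open Finset

theorem result {V : Type*} [Fintype V] [Nonempty V] (G : SimpleGraph V) [DecidableRel G.Adj]
    (hG : ∀ v, G.degree v ≤ 3) :
    ∃ S : Finset V, (∀ v ∈ S, (S.filter (fun y => G.Adj v y)).card = 2) ∧
      5 * ((G.edgeFinset.card : ℤ) - Fintype.card V + 1) ≤ 9 * S.card ∧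
      (G.IsRegularOfDegree 3 → 5 * Fintype.card V + 10 ≤ 18 * S.card) := by
  classical
  obtain ⟨S, hS, hc⟩ := H93.CI.main (G := G) hG
  refine ⟨S, fun v hv => ?_, ?_, ?_⟩
  · have := hS v hv
    unfold H93.CI.dg at this
    convert this
  · have : (5 * (G.edgeFinset.card + 1) : ℤ) ≤ 9 * S.card + 5 * Fintype.card V := by
      exact_mod_cast hc
    linarith
  · intro h3
    have h := G.sum_degrees_eq_twice_card_edges
    have h1 : ∑ v, G.degree v = 3 * Fintype.card V := by
      rw [Finset.sum_congr rfl (fun v _ => h3 v), Finset.sum_const, Finset.card_univ, smul_eq_mul,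
        mul_comm]
    omega

end Pool.Agent.Results.MP_036d25_co.SubcubicFiveNinths
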